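import Pool.Agent.Helper40.Ct.Goals

/-!
A facet gives a colourful partition.
-/

set_option autoImplicit false

namespace Pool.Agent.Helper17.Ct

open Pool.Agent.Helper40.Ct

theorem perm_aux {r : ℕ} (p : Equiv.Perm (Fin (r + 1))) (a j : Fin r)
    (h : p a.succ = j.succ) : (Equiv.Perm.decomposeFin p).2 a = j := by
  obtain ⟨⟨q, e⟩, rfl⟩ : ∃ z, p = Equiv.Perm.decomposeFin.symm z :=
    ⟨Equiv.Perm.decomposeFin p, by simp⟩
  have h0 : Equiv.Perm.decomposeFin.symm (q, e) 0 = q :=
    Equiv.Perm.decomposeFin_symm_apply_zero q e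
  have hq : j.succ ≠ q := by
    intro hjq
    have : Equiv.Perm.decomposeFin.symm (q, e) a.succ
        = Equiv.Perm.decomposeFin.symm (q, e) 0 := by rw [h, h0, hjq]
    exact (Fin.succ_ne_zero a) ((Equiv.injective _) this)
  rw [Equiv.Perm.decomposeFin_symm_apply_succ] at h
  have h1 : (e a).succ = Equiv.swap 0 q j.succ := by
    rw [← h, Equiv.swap_apply_self]
  rw [Equiv.swap_apply_of_ne_of_ne (Fin.succ_ne_zero j) hq] at h1
  simpa using Fin.succ_injective _ h1

/-- packet PERM -/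
theorem perm : PERM := by
  intro d r π
  refine ⟨fun i => (Equiv.Perm.decomposeFin (π i)).2⁻¹, ?_⟩
  intro i a j h
  rw [Equiv.Perm.inv_eq_iff_eq, perm_aux (π i) a j h]

end Pool.Agent.Helper17.Ct
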